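import Pool.Agent.H93.RG.Flow

/-!
# FG for blocks of size `r`: the world over the complete graph, from an abstract filtration

Points: `r - 1` points `(a, b, j)` for each ordered pair `(a, b)` of different vertices and `c` more points, which are in the group
of the vertex `0`. For `y` with flow `i ≠ 0` from `a` to `b` the points `(a, b, j)` with `j < i` and `(b, a, j)` with `j < r - i` form a
block; the other points of a group have a partition into blocks of size `r`, if their number is a multiple of `r`.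
-/

set_option autoImplicit false
set_option linter.unusedSectionVars false

namespace Pool.Agent.H87.RG

open Finset
open Pool.Agent.H93.RG
open Pool.Agent.H67.FG (ind Alg)

theorem mem_cov' {V : Type} [Fintype V] {M : Finset (Finset V)} {v : V} : v ∈ cov M ↔ ∃ e ∈ M, v ∈ e := by
  classical
  unfold cov
  constructor
  · intro h
    exact (mem_filter.1 h).2
  · intro h
    exact mem_filter.2 ⟨mem_univ _, h⟩

/-- a partition into blocks of size `r` of each finite set whose size is a multiple of `r` -/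
theorem pm_exists (r : ℕ) (hr : 1 ≤ r) {V : Type} [Fintype V] [DecidableEq V] (R : Finset V) :
    ∃ M : Finset (Finset V), IsM r M ∧ (∀ e ∈ M, e ⊆ R) ∧ (r ∣ R.card → R ⊆ cov M) := by
  have h0 : IsM r (∅ : Finset (Finset V)) :=
    ⟨fun e he => absurd he (notMem_empty _), fun e he => absurd he (notMem_empty _)⟩
  induction R using Finset.strongInduction with
  | H R ih =>
    by_cases hd : r ∣ R.card
    · rcases R.eq_empty_or_nonempty with rfl | hne
      · exact ⟨∅, h0, fun e he => absurd he (notMem_empty _), fun _ => empty_subset _⟩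
      · have h1 : r ≤ R.card := Nat.le_of_dvd (card_pos.2 hne) hd
        obtain ⟨T, hT, hTc⟩ := exists_subset_card_eq h1
        have hTne : T.Nonempty := card_pos.1 (by omega)
        have hss : R \ T ⊂ R := sdiff_ssubset hT hTne
        obtain ⟨M, hM, hMR, hcov⟩ := ih _ hss
        refine ⟨insert T M, ⟨?_, ?_⟩, ?_, fun _ v hv => ?_⟩
        · intro e he
          rcases mem_insert.1 he with rfl | he
          · exact hTc
          · exact hM.1 e he
        · intro e he f hf v hve hvf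
          rcases mem_insert.1 he with rfl | he
          · rcases mem_insert.1 hf with rfl | hf
            · rfl
            · exact absurd hve (mem_sdiff.1 (hMR f hf hvf)).2
          · rcases mem_insert.1 hf with hf | hf
            · rw [hf] at hvf
              exact absurd hvf (mem_sdiff.1 (hMR e he hve)).2
            · exact hM.2 e he f hf v hve hvf
        · intro e he
          rcases mem_insert.1 he with rfl | he
          · exact hT
          · exact (hMR e he).trans sdiff_subset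
        · by_cases hvT : v ∈ T
          · exact mem_cov'.2 ⟨T, mem_insert_self _ _, hvT⟩
          · have hcard : r ∣ (R \ T).card := by
              rw [card_sdiff_of_subset hT, hTc]
              exact Nat.dvd_sub hd (dvd_refl r)
            obtain ⟨e, he, hve⟩ := mem_cov'.1 (hcov hcard (mem_sdiff.2 ⟨hv, hvT⟩))
            exact mem_cov'.2 ⟨e, mem_insert_of_mem he, hve⟩
    · exact ⟨∅, h0, fun e he => absurd he (notMem_empty _), fun h => absurd h hd⟩

/-- a partition of each finite set whose size is a multiple of `r` -/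
noncomputable def pm (r : ℕ) (hr : 1 ≤ r) {V : Type} [Fintype V] [DecidableEq V] (R : Finset V) : Finset (Finset V) :=
  (pm_exists r hr R).choose

theorem pm_spec (r : ℕ) (hr : 1 ≤ r) {V : Type} [Fintype V] [DecidableEq V] (R : Finset V) :
    IsM r (pm r hr R) ∧ (∀ e ∈ pm r hr R, e ⊆ R) ∧ (r ∣ R.card → R ⊆ cov (pm r hr R)) :=
  (pm_exists r hr R).choose_spec

/-- ordered pairs of different vertices -/
abbrev Pr (q : ℕ) : Type := {x : Fin q × Fin q // x.1 ≠ x.2}

variable {r q c : ℕ}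

/-- the edge of a pair -/
def edg (x : Pr q) : Ed q := ⟨s(x.1.1, x.1.2), fun h => x.2 (Sym2.mk_isDiag_iff.1 h)⟩

/-- the opposite pair -/
def opp (x : Pr q) : Pr q := ⟨(x.1.2, x.1.1), fun h => x.2 h.symm⟩

theorem opp_opp (x : Pr q) : opp (opp x) = x := rfl

theorem edg_opp (x : Pr q) : edg (opp x) = edg x := Subtype.ext (Sym2.eq_swap)

theorem opp_ne (x : Pr q) : opp x ≠ x := by
  intro h
  have h1 := congrArg (fun z : Pr q => z.1.1) h
  exact x.2 h1.symm

theorem flow_self (y : Ed q → ZMod r) (a : Fin q) : flow y a a = 0 := by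
  unfold flow
  rw [dif_pos (Sym2.mk_isDiag_iff.2 rfl)]

theorem flow_pr (y : Ed q → ZMod r) (x : Pr q) :
    flow y x.1.1 x.1.2 = if x.1.1 < x.1.2 then y (edg x) else - y (edg x) := by
  have h : ¬ s(x.1.1, x.1.2).IsDiag := (edg x).2
  unfold flow
  rw [dif_neg h]
  rfl

theorem flow_opp (y : Ed q → ZMod r) (x : Pr q) :
    flow y (opp x).1.1 (opp x).1.2 = - flow y x.1.1 x.1.2 := by
  rw [flow_pr, flow_pr, edg_opp]
  show (if x.1.2 < x.1.1 then y (edg x) else - y (edg x)) = - (if x.1.1 < x.1.2 then y (edg x) else - y (edg x))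
  rcases lt_or_gt_of_ne x.2 with h | h
  · rw [if_neg (not_lt_of_gt h), if_pos h]
  · rw [if_pos h, if_neg (not_lt_of_gt h), neg_neg]

theorem flow_congr {y y' : Ed q → ZMod r} {x : Pr q} (h : y (edg x) = y' (edg x)) :
    flow y x.1.1 x.1.2 = flow y' x.1.1 x.1.2 := by
  rw [flow_pr, flow_pr, h]

/-- the number of the points of the pair which go across -/
def nx (y : Ed q → ZMod r) (x : Pr q) : ℕ := (flow y x.1.1 x.1.2).val

theorem nx_congr {y y' : Ed q → ZMod r} {x : Pr q} (h : y (edg x) = y' (edg x)) : nx y x = nx y' x := by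
  unfold nx
  rw [flow_congr h]

theorem nx_lt (hr : 1 ≤ r) (y : Ed q → ZMod r) (x : Pr q) : nx y x ≤ r - 1 := by
  have : NeZero r := ⟨by omega⟩
  have h1 : nx y x < r := ZMod.val_lt _
  omega

theorem nx_add (hr : 1 ≤ r) (y : Ed q → ZMod r) (x : Pr q) (h : nx y x ≠ 0) : nx y x + nx y (opp x) = r := by
  have : NeZero r := ⟨by omega⟩
  have h0 : flow y x.1.1 x.1.2 ≠ 0 := by
    intro h1
    apply h
    unfold nx
    rw [h1, ZMod.val_zero]
  have h1 : nx y (opp x) = r - nx y x := by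
    unfold nx
    rw [flow_opp, ZMod.neg_val, if_neg h0]
  have h2 := nx_lt hr y x
  omega

theorem nx_opp_ne (hr : 1 ≤ r) (y : Ed q → ZMod r) (x : Pr q) (h : nx y x ≠ 0) : nx y (opp x) ≠ 0 := by
  have h1 := nx_add hr y x h
  have h2 := nx_lt hr y x
  omega

open scoped Classical in
/-- the block of a pair -/
noncomputable def blk (y : Ed q → ZMod r) (x : Pr q) : Finset (Pt r q c) :=
  univ.filter fun p => ∃ (x' : Pr q) (j : Fin (r - 1)), p = Sum.inl (x', j) ∧ (x' = x ∨ x' = opp x) ∧ (j : ℕ) < nx y x'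

theorem mem_blk {y : Ed q → ZMod r} {x : Pr q} {p : Pt r q c} : p ∈ blk y x ↔
    ∃ (x' : Pr q) (j : Fin (r - 1)), p = Sum.inl (x', j) ∧ (x' = x ∨ x' = opp x) ∧ (j : ℕ) < nx y x' := by
  unfold blk
  rw [mem_filter]
  exact ⟨fun h => h.2, fun h => ⟨mem_univ _, h⟩⟩

theorem blk_opp (y : Ed q → ZMod r) (x : Pr q) : (blk y (opp x) : Finset (Pt r q c)) = blk y x := by
  ext p
  rw [mem_blk, mem_blk]
  constructor
  · rintro ⟨x', j, h1, h2, h3⟩
    refine ⟨x', j, h1, ?_, h3⟩
    rcases h2 with h2 | h2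
    · exact Or.inr h2
    · exact Or.inl (by rw [h2, opp_opp])
  · rintro ⟨x', j, h1, h2, h3⟩
    refine ⟨x', j, h1, ?_, h3⟩
    rcases h2 with h2 | h2
    · exact Or.inr (by rw [h2, opp_opp])
    · exact Or.inl h2

theorem card_lt {m n : ℕ} (h : n ≤ m) : (univ.filter fun j : Fin m => (j : ℕ) < n).card = n := by
  have h0 : (range n).card = (univ.filter fun j : Fin m => (j : ℕ) < n).card := by
    refine card_bij (fun i hi => (⟨i, lt_of_lt_of_le (mem_range.1 hi) h⟩ : Fin m)) ?_ ?_ ?_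
    · intro i hi
      exact mem_filter.2 ⟨mem_univ _, mem_range.1 hi⟩
    · intro i hi i' hi' h1
      exact congrArg Fin.val h1
    · intro j hj
      exact ⟨j, mem_range.2 (mem_filter.1 hj).2, rfl⟩
  rw [← h0, card_range]

theorem card_blk (hr : 1 ≤ r) (y : Ed q → ZMod r) (x : Pr q) (h : nx y x ≠ 0) :
    (blk y x : Finset (Pt r q c)).card = r := by
  classical
  have hinj : ∀ x : Pr q, Function.Injective (fun j : Fin (r - 1) => (Sum.inl (x, j) : Pt r q c)) := by
    intro x j j' h1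
    exact (Prod.ext_iff.1 (Sum.inl.inj h1)).2
  have h1 : (blk y x : Finset (Pt r q c)) =
      (univ.filter fun j : Fin (r - 1) => (j : ℕ) < nx y x).image (fun j => (Sum.inl (x, j) : Pt r q c)) ∪
      (univ.filter fun j : Fin (r - 1) => (j : ℕ) < nx y (opp x)).image (fun j => (Sum.inl (opp x, j) : Pt r q c)) := by
    ext p
    rw [mem_blk, mem_union, mem_image, mem_image]
    constructor
    · rintro ⟨x', j, h1, rfl | rfl, h3⟩
      · exact Or.inl ⟨j, mem_filter.2 ⟨mem_univ _, h3⟩, h1.symm⟩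
      · exact Or.inr ⟨j, mem_filter.2 ⟨mem_univ _, h3⟩, h1.symm⟩
    · rintro (⟨j, h1, h2⟩ | ⟨j, h1, h2⟩)
      · exact ⟨x, j, h2.symm, Or.inl rfl, (mem_filter.1 h1).2⟩
      · exact ⟨opp x, j, h2.symm, Or.inr rfl, (mem_filter.1 h1).2⟩
  rw [h1, card_union_of_disjoint, card_image_of_injective _ (hinj _), card_image_of_injective _ (hinj _),
    card_lt (nx_lt hr _ _), card_lt (nx_lt hr _ _)]
  · exact nx_add hr y x h
  · rw [disjoint_left]
    intro p hp hp'
    obtain ⟨j, _, h2⟩ := mem_image.1 hp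
    obtain ⟨j', _, h3⟩ := mem_image.1 hp'
    have h4 := Sum.inl.inj (h3.trans h2.symm)
    exact opp_ne x (Prod.ext_iff.1 h4).1

/-- the group of a point -/
def grp (v0 : Fin q) : Pt r q c → Fin q
  | Sum.inl x => x.1.1.1
  | Sum.inr _ => v0

/-- the point is free: it does not go across -/
def fre (y : Ed q → ZMod r) : Pt r q c → Prop
  | Sum.inl x => ¬ (x.2 : ℕ) < nx y x.1
  | Sum.inr _ => True

open scoped Classical in
/-- the free points of a group -/
noncomputable def Rst (v0 : Fin q) (y : Ed q → ZMod r) (v : Fin q) : Finset (Pt r q c) :=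
  univ.filter fun a => grp v0 a = v ∧ fre y a

theorem mem_Rst {v0 : Fin q} {y : Ed q → ZMod r} {v : Fin q} {a : Pt r q c} :
    a ∈ Rst v0 y v ↔ grp v0 a = v ∧ fre y a := by
  classical
  unfold Rst
  constructor
  · intro h
    exact (mem_filter.1 h).2
  · intro h
    exact mem_filter.2 ⟨mem_univ _, h⟩

open scoped Classical in
/-- the partial partition -/
noncomputable def Mt (hr : 1 ≤ r) (v0 : Fin q) (y : Ed q → ZMod r) : Finset (Finset (Pt r q c)) :=
  univ.filter fun e => (∃ x : Pr q, nx y x ≠ 0 ∧ e = blk y x) ∨ ∃ v, e ∈ pm r hr (Rst v0 y v)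

theorem mem_Mt {hr : 1 ≤ r} {v0 : Fin q} {y : Ed q → ZMod r} {e : Finset (Pt r q c)} : e ∈ Mt hr v0 y ↔
    (∃ x : Pr q, nx y x ≠ 0 ∧ e = blk y x) ∨ ∃ v, e ∈ pm r hr (Rst v0 y v) := by
  classical
  unfold Mt
  constructor
  · intro h
    exact (mem_filter.1 h).2
  · intro h
    exact mem_filter.2 ⟨mem_univ _, h⟩

/-- a block of the partial partition at the point `a` -/
theorem at_point {hr : 1 ≤ r} {v0 : Fin q} {y : Ed q → ZMod r} {e : Finset (Pt r q c)} (he : e ∈ Mt hr v0 y)
    {a : Pt r q c} (ha : a ∈ e) :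
    (∃ (x : Pr q) (j : Fin (r - 1)), a = Sum.inl (x, j) ∧ (j : ℕ) < nx y x ∧ e = blk y x) ∨
      (fre y a ∧ e ∈ pm r hr (Rst v0 y (grp v0 a))) := by
  rcases mem_Mt.1 he with ⟨x, hx, rfl⟩ | ⟨v, hv⟩
  · left
    obtain ⟨x', j, h1, h2, h3⟩ := mem_blk.1 ha
    refine ⟨x', j, h1, h3, ?_⟩
    rcases h2 with h2 | h2
    · rw [h2]
    · rw [h2, blk_opp]
  · right
    have h1 := (pm_spec r hr (Rst v0 y v)).2.1 e hv ha
    obtain ⟨h2, h3⟩ := mem_Rst.1 h1
    rw [h2]
    exact ⟨h3, hv⟩

theorem isM_Mt (hr : 1 ≤ r) (v0 : Fin q) (y : Ed q → ZMod r) : IsM r (Mt hr v0 y : Finset (Finset (Pt r q c))) := by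
  refine ⟨fun e he => ?_, fun e he f hf a ha ha' => ?_⟩
  · rcases mem_Mt.1 he with ⟨x, hx, rfl⟩ | ⟨v, hv⟩
    · exact card_blk hr y x hx
    · exact (pm_spec r hr _).1.1 e hv
  · rcases at_point he ha with ⟨x, j, hx1, hx2, hx3⟩ | ⟨h1, h2⟩
    · rcases at_point hf ha' with ⟨x', j', hx1', hx2', hx3'⟩ | ⟨h1', h2'⟩
      · have h3 := Sum.inl.inj (hx1.symm.trans hx1')
        have h4 : x = x' := (Prod.ext_iff.1 h3).1
        rw [hx3, hx3', h4]
      · rw [hx1] at h1'
        exact absurd hx2 h1'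
    · rcases at_point hf ha' with ⟨x', j', hx1', hx2', hx3'⟩ | ⟨h1', h2'⟩
      · rw [hx1'] at h1
        exact absurd hx2' h1
      · exact (pm_spec r hr _).1.2 e h2 f h2' a ha ha'

theorem mem_atv {v : Fin q} {e : Ed q} : e ∈ atv v ↔ v ∈ e.1 := by
  unfold atv
  rw [mem_filter]
  exact ⟨fun h => h.2, fun h => ⟨mem_univ _, h⟩⟩

/-- the other endpoints of the edges at `v` -/
theorem card_atv (v : Fin q) : (atv v).card = q - 1 := by
  have h1 : (univ.filter fun u : Fin q => u ≠ v).card = q - 1 := by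
    rw [filter_ne', card_erase_of_mem (mem_univ _), card_univ, Fintype.card_fin]
  rw [← h1]
  symm
  refine card_bij (fun u hu => (⟨s(v, u), fun h => (mem_filter.1 hu).2 (Sym2.mk_isDiag_iff.1 h).symm⟩ : Ed q)) ?_ ?_ ?_
  · intro u hu
    exact mem_atv.2 (Sym2.mem_mk_left v u)
  · intro u hu u' hu' h
    have h2 : s(v, u) = s(v, u') := congrArg Subtype.val h
    exact Sym2.congr_right.1 h2
  · intro e he
    obtain ⟨u, hu⟩ := Sym2.mem_iff_exists.1 (mem_atv.1 he)
    have hne : u ≠ v := by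
      intro h
      apply e.2
      rw [hu, h, Sym2.mk_isDiag_iff]
    exact ⟨u, mem_filter.2 ⟨mem_univ _, hne⟩, Subtype.ext hu.symm⟩

/-- the variables which matter for the blocks at the points of `A` -/
def EA (v0 : Fin q) (A : Finset (Pt r q c)) : Finset (Ed q) := A.biUnion fun a => atv (grp v0 a)

theorem card_EA (v0 : Fin q) (A : Finset (Pt r q c)) : (EA v0 A).card ≤ A.card * (q - 1) :=
  card_biUnion_le_card_mul _ _ _ fun _ _ => le_of_eq (card_atv _)

theorem edg_mem_atv (x : Pr q) : edg x ∈ atv x.1.1 := mem_atv.2 (Sym2.mem_mk_left _ _)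

theorem Rst_congr {v0 : Fin q} {y y' : Ed q → ZMod r} {v : Fin q} (h : ∀ e ∈ atv v, y e = y' e) :
    (Rst v0 y v : Finset (Pt r q c)) = Rst v0 y' v := by
  ext a
  rw [mem_Rst, mem_Rst]
  refine and_congr_right fun hv => ?_
  rcases a with x | u
  · have h1 : nx y x.1 = nx y' x.1 := nx_congr (h _ (by rw [← hv]; exact edg_mem_atv x.1))
    show ¬ (x.2 : ℕ) < nx y x.1 ↔ ¬ (x.2 : ℕ) < nx y' x.1
    rw [h1]
  · exact Iff.rfl

theorem blk_congr {y y' : Ed q → ZMod r} {x : Pr q} (h : y (edg x) = y' (edg x)) :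
    (blk y x : Finset (Pt r q c)) = blk y' x := by
  have h1 : nx y x = nx y' x := nx_congr h
  have h2 : nx y (opp x) = nx y' (opp x) := nx_congr (by rw [edg_opp]; exact h)
  ext p
  rw [mem_blk, mem_blk]
  constructor
  · rintro ⟨x', j, h3, rfl | rfl, h4⟩
    · exact ⟨x', j, h3, Or.inl rfl, by rw [← h1]; exact h4⟩
    · exact ⟨opp x, j, h3, Or.inr rfl, by rw [← h2]; exact h4⟩
  · rintro ⟨x', j, h3, rfl | rfl, h4⟩
    · exact ⟨x', j, h3, Or.inl rfl, by rw [h1]; exact h4⟩
    · exact ⟨opp x, j, h3, Or.inr rfl, by rw [h2]; exact h4⟩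

/-- locality, one direction -/
theorem loc_one {hr : 1 ≤ r} {v0 : Fin q} {y y' : Ed q → ZMod r} {a : Pt r q c}
    (h : ∀ e ∈ atv (grp v0 a), y e = y' e) {e : Finset (Pt r q c)} (he : e ∈ Mt hr v0 y) (ha : a ∈ e) :
    e ∈ Mt hr v0 y' := by
  rcases at_point he ha with ⟨x, j, rfl, hx2, hx3⟩ | ⟨h1, h2⟩
  · have h1 : y (edg x) = y' (edg x) := h _ (edg_mem_atv x)
    refine mem_Mt.2 (Or.inl ⟨x, ?_, ?_⟩)
    · rw [← nx_congr h1]
      omega
    · rw [← blk_congr h1]
      exact hx3
  · refine mem_Mt.2 (Or.inr ⟨grp v0 a, ?_⟩)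
    rw [← Rst_congr h]
    exact h2

theorem mem_tch {A : Finset (Pt r q c)} {M : Finset (Finset (Pt r q c))} {e : Finset (Pt r q c)} :
    e ∈ tch A M ↔ e ∈ M ∧ ∃ v ∈ A, v ∈ e := by
  unfold tch
  rw [mem_filter]

/-- locality -/
theorem tch_congr {hr : 1 ≤ r} {v0 : Fin q} {y y' : Ed q → ZMod r} {A : Finset (Pt r q c)}
    (h : ∀ e ∈ EA v0 A, y e = y' e) : tch A (Mt hr v0 y) = tch A (Mt hr v0 y') := by
  have h1 : ∀ a ∈ A, ∀ e ∈ atv (grp v0 a), y e = y' e := fun a ha e he => h e (mem_biUnion.2 ⟨a, ha, he⟩)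
  ext e
  rw [mem_tch, mem_tch]
  constructor
  · rintro ⟨he, a, ha, hae⟩
    exact ⟨loc_one (h1 a ha) he hae, a, ha, hae⟩
  · rintro ⟨he, a, ha, hae⟩
    exact ⟨loc_one (fun e he => (h1 a ha e he).symm) he hae, a, ha, hae⟩

theorem cov_tch {A : Finset (Pt r q c)} {M : Finset (Finset (Pt r q c))} : A ⊆ cov M ↔ A ⊆ cov (tch A M) := by
  constructor
  · intro h a ha
    obtain ⟨e, he, hae⟩ := mem_cov'.1 (h ha)
    exact mem_cov'.2 ⟨e, mem_tch.2 ⟨he, a, ha, hae⟩, hae⟩
  · intro h a ha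
    obtain ⟨e, he, hae⟩ := mem_cov'.1 (h ha)
    exact mem_cov'.2 ⟨e, (mem_tch.1 he).1, hae⟩

/-- an uncovered point: the number of free points of its group is wrong -/
theorem uncov {hr : 1 ≤ r} {v0 : Fin q} {y : Ed q → ZMod r} {a : Pt r q c} (h : a ∉ cov (Mt hr v0 y)) :
    ¬ r ∣ (Rst v0 y (grp v0 a) : Finset (Pt r q c)).card := by
  intro hev
  apply h
  by_cases hf : fre y a
  · have h1 := (pm_spec r hr (Rst v0 y (grp v0 a))).2.2 hev (mem_Rst.2 ⟨rfl, hf⟩)
    obtain ⟨e, he, hae⟩ := mem_cov'.1 h1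
    exact mem_cov'.2 ⟨e, mem_Mt.2 (Or.inr ⟨_, he⟩), hae⟩
  · rcases a with x | u
    · have h1 : (x.2 : ℕ) < nx y x.1 := not_not.1 hf
      exact mem_cov'.2 ⟨blk y x.1, mem_Mt.2 (Or.inl ⟨x.1, by omega, rfl⟩), mem_blk.2 ⟨x.1, x.2, rfl, Or.inl rfl, h1⟩⟩
    · exact absurd trivial hf

/-- free points of a pair: their number modulo `r` -/
theorem sum_free (hr : 1 ≤ r) (y : Ed q → ZMod r) (x : Pr q) :
    (∑ j : Fin (r - 1), if ¬ (j : ℕ) < nx y x then (1 : ZMod r) else 0) = - 1 - flow y x.1.1 x.1.2 := by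
  have : NeZero r := ⟨by omega⟩
  have h1 : ∀ j : Fin (r - 1), (if ¬ (j : ℕ) < nx y x then (1 : ZMod r) else 0) =
      1 - (if (j : ℕ) < nx y x then (1 : ZMod r) else 0) := by
    intro j
    by_cases h : (j : ℕ) < nx y x
    · rw [if_neg (not_not.2 h), if_pos h, sub_self]
    · rw [if_pos h, if_neg h, sub_zero]
  have h2 : (∑ j : Fin (r - 1), if (j : ℕ) < nx y x then (1 : ZMod r) else 0) = flow y x.1.1 x.1.2 := by
    rw [← natCast_card_filter, card_lt (nx_lt hr _ _)]
    exact ZMod.natCast_zmod_val _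
  have h3 : (∑ _j : Fin (r - 1), (1 : ZMod r)) = -1 := by
    rw [sum_const, card_univ, Fintype.card_fin, nsmul_one, Nat.cast_sub hr, ZMod.natCast_self, Nat.cast_one, zero_sub]
  rw [sum_congr rfl fun j _ => h1 j, sum_sub_distrib, h2, h3]

/-- free points of a group: their number modulo `r` -/
theorem card_Rst (hr : 1 ≤ r) (hq1 : ((q : ℕ) : ZMod r) = 1) (v0 : Fin q) (y : Ed q → ZMod r) (v : Fin q) :
    (((Rst v0 y v : Finset (Pt r q c)).card : ℕ) : ZMod r) = (if v = v0 then (c : ZMod r) else 0) - ∑ b, flow y v b := by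
  classical
  have h1 : (((Rst v0 y v : Finset (Pt r q c)).card : ℕ) : ZMod r) =
      ∑ a : Pt r q c, if grp v0 a = v ∧ fre y a then (1 : ZMod r) else 0 := by
    unfold Rst
    rw [natCast_card_filter]
  have h2 : (∑ i : Fin c, if grp (r := r) v0 (Sum.inr i : Pt r q c) = v ∧ fre y (Sum.inr i : Pt r q c) then (1 : ZMod r) else 0)
      = if v = v0 then (c : ZMod r) else 0 := by
    have h3 : ∀ i : Fin c, (if grp (r := r) v0 (Sum.inr i : Pt r q c) = v ∧ fre y (Sum.inr i : Pt r q c) then (1 : ZMod r)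
        else 0) = if v = v0 then 1 else 0 := by
      intro i
      by_cases h : v = v0
      · rw [if_pos ⟨h.symm, trivial⟩, if_pos h]
      · rw [if_neg (fun h4 => h h4.1.symm), if_neg h]
    rw [sum_congr rfl fun i _ => h3 i, sum_const, card_univ, Fintype.card_fin]
    split_ifs
    · rw [nsmul_one]
    · rw [smul_zero]
  have h4 : ∀ x : Pr q, (∑ j : Fin (r - 1), if grp v0 (Sum.inl (x, j) : Pt r q c) = v ∧ fre y (Sum.inl (x, j) : Pt r q c)
      then (1 : ZMod r) else 0) = if x.1.1 = v then - 1 - flow y x.1.1 x.1.2 else 0 := by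
    intro x
    by_cases h : x.1.1 = v
    · rw [if_pos h, ← sum_free hr y x]
      refine sum_congr rfl fun j _ => ?_
      by_cases h5 : (j : ℕ) < nx y x
      · rw [if_neg (fun h6 => h6.2 h5), if_neg (not_not.2 h5)]
      · rw [if_pos ⟨h, h5⟩, if_pos h5]
    · rw [if_neg h]
      refine sum_eq_zero fun j _ => ?_
      rw [if_neg (fun h6 => h h6.1)]
  have h5 : (∑ x : Pr q, if x.1.1 = v then - 1 - flow y x.1.1 x.1.2 else 0) = - ∑ b, flow y v b := by
    have h6 : (∑ x : Pr q, if x.1.1 = v then - 1 - flow y x.1.1 x.1.2 else 0) =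
        ∑ z ∈ (univ : Finset (Fin q × Fin q)).filter (fun z => z.1 ≠ z.2),
          if z.1 = v then - 1 - flow y z.1 z.2 else 0 := by
      symm
      exact sum_subtype _ (fun z => by rw [mem_filter]; exact ⟨fun h => h.2, fun h => ⟨mem_univ _, h⟩⟩)
        (fun z : Fin q × Fin q => if z.1 = v then - 1 - flow y z.1 z.2 else 0)
    rw [h6, sum_filter, Fintype.sum_prod_type]
    have h7 : ∀ a : Fin q, a ≠ v →
        (∑ b : Fin q, if a ≠ b then (if a = v then - 1 - flow y a b else 0) else 0) = 0 := by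
      intro a ha
      refine sum_eq_zero fun b _ => ?_
      rw [if_neg ha, ite_self]
    rw [Fintype.sum_eq_single v h7]
    have h8 : ∀ b : Fin q, (if v ≠ b then (if v = v then - 1 - flow y v b else 0) else 0) =
        (if v = b then (1 : ZMod r) else 0) - 1 - flow y v b := by
      intro b
      rw [if_pos rfl]
      by_cases h : v = b
      · rw [if_neg (not_not.2 h), if_pos h, ← h, flow_self]
        ring
      · rw [if_pos h, if_neg h]
        ring
    show (∑ b : Fin q, if v ≠ b then (if v = v then - 1 - flow y v b else 0) else 0) = _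
    rw [sum_congr rfl fun b _ => h8 b, sum_sub_distrib, sum_sub_distrib, sum_const, card_univ, Fintype.card_fin, nsmul_one,
      hq1, sum_ite_eq, if_pos (mem_univ _)]
    ring
  rw [h1, Fintype.sum_sum_type, h2, Fintype.sum_prod_type, sum_congr rfl fun x _ => h4 x, h5]
  ring

theorem vio_iff (hr : 1 ≤ r) (hq1 : ((q : ℕ) : ZMod r) = 1) {v0 : Fin q} (hv0 : (v0 : ℕ) = 0) (y : Ed q → ZMod r)
    (v : Fin q) : ¬ r ∣ (Rst v0 y v : Finset (Pt r q c)).card ↔ Vio c v y := by
  have h1 : (if v = v0 then (c : ZMod r) else 0) = ch r c v := by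
    unfold ch
    by_cases h : v = v0
    · rw [if_pos h, if_pos (by rw [h]; exact hv0)]
    · rw [if_neg h, if_neg (fun h2 => h (Fin.ext (h2.trans hv0.symm)))]
  rw [← ZMod.natCast_eq_zero_iff, card_Rst hr hq1, h1, sub_eq_zero]
  unfold Vio
  exact ⟨fun h h2 => h h2.symm, fun h h2 => h h2.symm⟩

theorem ind_congr {Y k : Type} [Field k] {P : Y → Prop} {y y' : Y} (h : P y ↔ P y') :
    (ind P y : k) = ind P y' := by
  unfold ind
  by_cases h1 : P y
  · rw [if_pos h1, if_pos (h.1 h1)]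
  · rw [if_neg h1, if_neg (fun h2 => h1 (h.2 h2))]

/-- the world from a filtration: functions of `n` variables have degree at most `n`, and the violations are in `Z` -/
theorem world_of (k : Type) [Field k] (r : ℕ) (hr : 1 ≤ r) (q c : ℕ) (hq : 0 < q) (hq1 : ((q : ℕ) : ZMod r) = 1)
    (𝓐 : Alg k (Ed q → ZMod r))
    (hdeg : ∀ (S : Finset (Ed q)) (f : (Ed q → ZMod r) → k), (∀ y y', (∀ e ∈ S, y e = y' e) → f y = f y') →
        f ∈ 𝓐.Deg S.card)
    (hviol : ∀ a : Fin q, ind (fun y => Vio c a y) ∈ 𝓐.Z) :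
    ∃ 𝓦 : MW r k (Ed q → ZMod r) (Pt r q c), 𝓦.c = q - 1 ∧ 𝓦.K = 𝓐.K := by
  have hv0 : (((⟨0, hq⟩ : Fin q) : Fin q) : ℕ) = 0 := rfl
  generalize (⟨0, hq⟩ : Fin q) = v0 at hv0
  have hviol' : ∀ v : Fin q, ind (fun y : Ed q → ZMod r => ¬ r ∣ (Rst v0 y v : Finset (Pt r q c)).card) ∈ 𝓐.Z := by
    intro v
    have h1 : (fun y : Ed q → ZMod r => ¬ r ∣ (Rst v0 y v : Finset (Pt r q c)).card) = fun y => Vio c v y :=
      funext fun y => propext (vio_iff hr hq1 hv0 y v)
    rw [h1]
    exact hviol v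
  have hdv : ∀ v : Fin q, ind (fun y : Ed q → ZMod r => ¬ r ∣ (Rst v0 y v : Finset (Pt r q c)).card) ∈
      𝓐.Deg (q - 1) := by
    intro v
    have h1 := hdeg (atv v) (ind fun y : Ed q → ZMod r => ¬ r ∣ (Rst v0 y v : Finset (Pt r q c)).card)
      (fun y y' h => ind_congr (by rw [Rst_congr h]))
    rw [card_atv] at h1
    exact h1
  have hdA : ∀ (A : Finset (Pt r q c)) (P : (Ed q → ZMod r) → Prop),
      (∀ y y', (∀ e ∈ EA v0 A, y e = y' e) → (P y ↔ P y')) → ind P ∈ 𝓐.Deg (A.card * (q - 1)) :=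
    fun A P h => 𝓐.mono (card_EA v0 A) (hdeg _ _ fun y y' h1 => ind_congr (h y y' h1))
  refine ⟨{ toAlg := 𝓐, M := Mt hr v0, c := q - 1, isM := isM_Mt hr v0, loc := ?_, stk := ?_ }, rfl, rfl⟩
  · intro A δ
    exact hdA A _ fun y y' h => by rw [tch_congr h]
  · intro A
    classical
    induction A using Finset.induction_on with
    | empty =>
      intro _
      have h1 : ind (k := k) (fun y : Ed q → ZMod r => ¬ (∅ : Finset (Pt r q c)) ⊆ cov (Mt hr v0 y)) = 0 := by
        funext y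
        unfold ind
        rw [if_neg (fun h => h (empty_subset _))]
        rfl
      rw [h1]
      exact Submodule.zero_mem _
    | insert a A ha ih =>
      intro hK
      rw [card_insert_of_notMem ha] at hK
      have hK1 : 2 * (A.card * (q - 1)) + (q - 1) ≤ 𝓐.K := by
        have h1 : A.card * (q - 1) ≤ (A.card + 1) * (q - 1) := Nat.mul_le_mul_right _ (Nat.le_succ _)
        omega
      have h0 := ih hK1
      have hf : ind (k := k) (fun y : Ed q → ZMod r => A ⊆ cov (Mt hr v0 y) ∧ a ∉ cov (Mt hr v0 y)) ∈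
          𝓐.Deg ((insert a A).card * (q - 1)) := by
        refine hdA (insert a A) _ fun y y' h => ?_
        have h1 : A ⊆ cov (Mt hr v0 y) ↔ A ⊆ cov (Mt hr v0 y') := by
          rw [cov_tch, cov_tch (M := Mt hr v0 y'), tch_congr fun e he => h e (biUnion_subset_biUnion_of_subset_left _
            (subset_insert _ _) he)]
        have h2 : ({a} : Finset (Pt r q c)) ⊆ cov (Mt hr v0 y) ↔ ({a} : Finset (Pt r q c)) ⊆ cov (Mt hr v0 y') := by
          rw [cov_tch, cov_tch (M := Mt hr v0 y'), tch_congr fun e he => h e (biUnion_subset_biUnion_of_subset_left _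
            (singleton_subset_iff.2 (mem_insert_self _ _)) he)]
        rw [singleton_subset_iff, singleton_subset_iff] at h2
        rw [h1, h2]
      rw [card_insert_of_notMem ha] at hf
      have h3 : ind (k := k) (fun y : Ed q → ZMod r => ¬ insert a A ⊆ cov (Mt hr v0 y)) =
          ind (fun y => ¬ A ⊆ cov (Mt hr v0 y)) + ind (fun y => A ⊆ cov (Mt hr v0 y) ∧ a ∉ cov (Mt hr v0 y)) *
            ind (fun y => ¬ r ∣ (Rst v0 y (grp v0 a) : Finset (Pt r q c)).card) := by
        funext y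
        rw [Pi.add_apply, Pi.mul_apply]
        unfold ind
        by_cases h1 : A ⊆ cov (Mt hr v0 y)
        · by_cases h2 : a ∈ cov (Mt hr v0 y)
          · rw [if_neg (fun h => h (insert_subset h2 h1)), if_neg (fun h => h h1), if_neg (fun h => h.2 h2)]
            ring
          · rw [if_pos (fun h => h2 (h (mem_insert_self _ _))), if_neg (fun h => h h1), if_pos ⟨h1, h2⟩,
              if_pos (uncov h2)]
            ring
        · rw [if_pos (fun h => h1 ((subset_insert _ _).trans h)), if_pos h1, if_neg (fun h => h1 h.1)]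
          ring
      rw [h3]
      refine Submodule.add_mem _ h0 (𝓐.zmul ?_ hf (hdv _) (hviol' _))
      have h4 : 2 * ((A.card + 1) * (q - 1)) + (q - 1) ≤ 𝓐.K := hK
      omega

/-- the number of points -/
theorem card_Pt (r q c : ℕ) : Fintype.card (Pt r q c) = q * (q - 1) * (r - 1) + c := by
  rw [Fintype.card_sum, Fintype.card_prod, Fintype.card_fin, Fintype.card_fin,
    Fintype.card_of_subtype (univ : Finset (Fin q)).offDiag
    (fun x => by rw [mem_offDiag]; exact ⟨fun h => h.2.2, fun h => ⟨mem_univ _, mem_univ _, h⟩⟩), offDiag_card,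
    card_univ, Fintype.card_fin, Nat.mul_sub_one q]

end Pool.Agent.H87.RG
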