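import Pool.Agent.H93.RG.Ring
import Pool.Agent.H87.RG.World

/-!
# FG for blocks of size `r`: the world (statement of H93/RG/World, from `alg_exists`)
-/

set_option autoImplicit false
set_option linter.unusedSectionVars false

namespace Pool.Agent.H87.RG

open Finset
open Pool.Agent.H93.RG
open Pool.Agent.H67.FG (ind Alg)

/-- the world -/
theorem world_exists (p : ℕ) [Fact p.Prime] (r : ℕ) (hr : 2 ≤ r) (hpr : ¬ p ∣ r) (q K c : ℕ) (hq : 3 < q)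
    (hq1 : q % r = 1) (hK : 9 * K < q ^ 2) (hqK : q - 1 ≤ K) :
    ∃ 𝓦 : MW r (ZMod p) (Ed q → ZMod r) (Pt r q c), 𝓦.c = q - 1 ∧ 𝓦.K = K := by
  obtain ⟨𝓐, h1, h2, h3⟩ := alg_exists p r hr hpr q K c hq hK hqK
  have h4 : ((q : ℕ) : ZMod r) = 1 := by
    have h5 : ((q : ℕ) : ZMod r) = ((1 : ℕ) : ZMod r) := by
      rw [ZMod.natCast_eq_natCast_iff, Nat.ModEq, hq1, Nat.mod_eq_of_lt (by omega)]
    rw [h5, Nat.cast_one]
  obtain ⟨𝓦, h6, h7⟩ := world_of (ZMod p) r (by omega) q c (by omega) h4 𝓐 h2 h3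
  exact ⟨𝓦, h6, h7.trans h1⟩

end Pool.Agent.H87.RG
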